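import Pool.Agent.Y802.ES.Two

/-!
# An exterior square criterion for the weak unramified Fontaine-Mazur conjecture

Let `K/F` be a finite Galois extension of number fields and `p` a prime, `p = 2` included. Let `G`
be the Galois group of the maximal `p`-extension of `K` in which no finite and no real place of `K`
ramifies. Suppose that `p ^ e > 2` kills all finite abelian quotients of `G` (by class field theory,
the `p`-part of the class group of `K`) and that no nonzero quotient `W` of the representation
`G^{ab} / p` of `Gal(K/F)` over `𝔽_p` is a subquotient of its exterior square `Λ² W` (for example,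
that the `p`-rank of the class group of `K` is at most two, or that `K` is a cyclic cubic field,
`p ≠ 3`, and this rank is at most five). Let `A` be a discrete valuation ring with finite residue
field of characteristic `p` in which `p` is not zero. Then every continuous homomorphism from `G` to
`GL_n(A)`, for any `n`, which is trivial modulo `p ^ e` is trivial. (More precisely, the congruence
is needed modulo the `s`-th power of the maximal ideal, where `s ≥ 1`, `s ≥ e e0` and, if `p = 2`,
`s > e0`; here `e0` is the valuation of `p`.)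
-/

set_option autoImplicit false

open NumberField IsLocalRing

namespace Pool.Agent.Results.MP_ca71b5_nt.ExteriorSquare

/-- The homomorphism `f` from the absolute Galois group of `K` to a group `E` is unramified at all
finite and real places. At the finite places: for every maximal ideal `P` of the ring of all
algebraic integers, the inertia group at `P` in the absolute Galois group of `K` is mapped to `1`.
At the real places: all complex conjugations, that is, all elements of order two of the absolute
Galois group, are mapped to `1`. -/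
def Unramified {F : Type} [Field F] {K : IntermediateField F (AlgebraicClosure F)}
    {E : Type} [Group E] (f : K.fixingSubgroup →* E) : Prop :=
  (∀ P : Ideal (𝓞 (AlgebraicClosure F)), P.IsMaximal → ∀ τ : K.fixingSubgroup,
    (∀ x : 𝓞 (AlgebraicClosure F), (τ : Gal(AlgebraicClosure F/F)) • x - x ∈ P) → f τ = 1) ∧
  ∀ τ : K.fixingSubgroup, τ * τ = 1 → f τ = 1

/-- `p ^ e` kills the Galois group of every unramified finite abelian extension of `K` of `p`-power
degree. -/
def AbelianExponent {F : Type} [Field F] (K : IntermediateField F (AlgebraicClosure F))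
    (p e : ℕ) : Prop :=
  ∀ (E : Type) [CommGroup E] [Finite E], IsPGroup p E → ∀ f : K.fixingSubgroup →* E,
    IsOpen (f.ker : Set K.fixingSubgroup) → Unramified f → ∀ g, f g ^ (p ^ e) = 1

/-- The finite representation `W` of `Gal(K/F)` over `𝔽_p` is, by way of the homomorphism `f` from
the absolute Galois group of `K` onto `W`, a quotient of `G^{ab} / p`: the map `f` is surjective
with open kernel, unramified, and equivariant for the action of the absolute Galois group of `F`
by conjugation. -/
structure IsQuotient {F : Type} [Field F] [CharZero F]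
    (K : IntermediateField F (AlgebraicClosure F)) [IsGalois F K] (p : ℕ) {W : Type}
    [AddCommGroup W] [Module (ZMod p) W] (τ : Representation (ZMod p) Gal(K/F) W)
    (f : K.fixingSubgroup →* Multiplicative W) : Prop where
  isOpen : IsOpen (f.ker : Set K.fixingSubgroup)
  unramified : Unramified f
  surjective : Function.Surjective f
  equivariant : ∀ (σ : Gal(AlgebraicClosure F/F)) (g : K.fixingSubgroup),
    Multiplicative.toAdd (f (MulAut.conjNormal σ g)) =
      τ (AlgEquiv.restrictNormalHom K σ) (Multiplicative.toAdd (f g))

/-- `W` is a subquotient of its exterior square `Λ² W`, as a representation: there are a finite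
representation `U`, an alternating bilinear equivariant map `B` from `W × W` to `U` and an
injective equivariant linear map `ι` from `W` to `U`, the image of which is contained in the span
of the values of `B`. -/
def SubquotientOfSquare {Δ : Type} [Group Δ] {p : ℕ} {W : Type} [AddCommGroup W]
    [Module (ZMod p) W] (τ : Representation (ZMod p) Δ W) : Prop :=
  ∃ (U : Type) (_ : AddCommGroup U) (_ : Module (ZMod p) U) (_ : Finite U)
    (υ : Representation (ZMod p) Δ U) (B : W →ₗ[ZMod p] W →ₗ[ZMod p] U) (ι : W →ₗ[ZMod p] U),
    (∀ w, B w w = 0) ∧ (∀ d w w', B (τ d w) (τ d w') = υ d (B w w')) ∧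
    (∀ d w, ι (τ d w) = υ d (ι w)) ∧ Function.Injective ι ∧
    ∀ w, ι w ∈ Submodule.span (ZMod p) {u | ∃ a b, u = B a b}

theorem result (p : ℕ) [Fact p.Prime] (F : Type) [Field F] [NumberField F]
    (K : IntermediateField F (AlgebraicClosure F)) [FiniteDimensional F K] [IsGalois F K]
    (e : ℕ) (he : AbelianExponent K p e)
    (hW : ∀ (W : Type) [AddCommGroup W] [Module (ZMod p) W] [Finite W] [Nontrivial W]
      (τ : Representation (ZMod p) Gal(K/F) W) (f : K.fixingSubgroup →* Multiplicative W),
      IsQuotient K p τ f → ¬ SubquotientOfSquare τ)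
    (A : Type) [CommRing A] [IsDomain A] [IsDiscreteValuationRing A] [TopologicalSpace A]
    (hA : IsAdic (maximalIdeal A)) (hfin : Finite (ResidueField A)) (e0 : ℕ)
    (hp : (p : A) ∈ maximalIdeal A) (h0 : (p : A) ∈ maximalIdeal A ^ e0)
    (h1 : (p : A) ∉ maximalIdeal A ^ (e0 + 1)) (n s : ℕ) (hs1 : 1 ≤ s) (hs : e * e0 ≤ s)
    (hs2 : p = 2 → e0 < s)
    (ρ : K.fixingSubgroup →* GL (Fin n) A) (hρ : Continuous ρ) (hur : Unramified ρ)
    (hcong : ∀ g i j, ((ρ g : Matrix (Fin n) (Fin n) A) - 1) i j ∈ maximalIdeal A ^ s) :
    ∀ g, ρ g = 1 := by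
  have hpp : p.Prime := Fact.out
  have : Finite Gal(K/F) := inferInstance
  set Ur : Set K.fixingSubgroup :=
    Pool.Agent.Y802.GC.UrN ∅ K.fixingSubgroup ∪ {τ | τ * τ = 1} with hUr
  have key : ∀ (E : Type) [Group E] (f : K.fixingSubgroup →* E),
      (∀ τ ∈ Ur, f τ = 1) ↔ Unramified f := by
    intro E _ f
    constructor
    · intro h
      exact ⟨fun P hP τ hτ => h τ (Or.inl ⟨P, hP, Set.notMem_empty _, hτ⟩),
        fun τ hτ => h τ (Or.inr hτ)⟩
    · rintro h τ (⟨P, hP, -, hτ⟩ | hτ)
      · exact h.1 P hP τ hτ
      · exact h.2 τ hτ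
  have hconj : ∀ (g : Gal(AlgebraicClosure F/F)) (τ : K.fixingSubgroup), τ ∈ Ur →
      MulAut.conjNormal g τ ∈ Ur := by
    rintro g τ (hτ | hτ)
    · exact Or.inl (Pool.Agent.Y802.GC.UrN_conj ∅ _ g τ hτ)
    · refine Or.inr ?_
      show MulAut.conjNormal g τ * MulAut.conjNormal g τ = 1
      have h2 : τ * τ = 1 := hτ
      rw [← map_mul, h2, map_one]
  refine Pool.Agent.Y802.ES.es_main2 (D := Gal(K/F)) (π := AlgEquiv.restrictNormalHom K)
    (Ur := Ur) hpp hA hfin hp h0 h1 hs1 hs
    (Decidable.or_iff_not_imp_left.2 fun h => hs2 (not_not.1 h))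
    (AlgEquiv.restrictNormalHom_surjective _) (fun σ => ?_) hconj
    (fun E _ _ hE f hf hfu g => he E hE f hf ((key E f).1 hfu) g)
    ?_ ρ hρ ((key _ ρ).2 hur) hcong
  · rw [← IntermediateField.restrictNormalHom_ker, MonoidHom.mem_ker]
  · intro W U iW mW fW iU mU fU τ υ α B ι h1 h2 h3 h4 h5 h6 h7 h8 h9
    by_contra hcon
    rw [not_subsingleton_iff_nontrivial] at hcon
    exact hW W τ α ⟨h1, (key _ α).1 h2, h3, h4⟩
      ⟨U, iU, mU, fU, υ, B, ι, h5, h6, h7, h8, h9⟩

end Pool.Agent.Results.MP_ca71b5_nt.ExteriorSquare
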