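import Pool.Agent.Y802.GC.NF

/-!
# The weak unramified Fontaine-Mazur conjecture in small dimension

Let `K/F` be a finite Galois extension of number fields and `p` a prime, `p = 2` included. Let `G`
be the Galois group of the maximal `p`-extension of `K` in which no finite and no real place of `K`
ramifies, and let `V` be the space of the homomorphisms from `G` to `ℤ/p` (by class field theory,
the dual of the class group of `K` modulo `p`), a representation of `Gal(K/F)` over `𝔽_p`. Suppose
that `p ^ e` kills all finite abelian quotients of `G` (the `p`-part of the class group of `K`),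
and that `V` and `V^{⊗ i}` have no common composition factor for `2 ≤ i ≤ m`. Let `A` be a discrete
valuation ring with finite residue field of characteristic `p` in which `p` has valuation `e0`.
Then every continuous homomorphism `ρ` from the absolute Galois group of `K` to `GL_n(A)`, which is
unramified at all finite and real places and unipotent modulo the maximal ideal, that is, every
homomorphism from `G` to `GL_n(A)`, is trivial if `n e e0 < m`. More generally, it is trivial if
all products of `r ≥ 1` matrices `ρ g - 1` vanish modulo the `s`-th power of the maximal ideal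
and `r e e0 < s m`.
-/

set_option autoImplicit false

open NumberField IsLocalRing

namespace Pool.Agent.Results.MP_ca71b5_nt.UnramifiedDimension

/-- The homomorphism `f` from the absolute Galois group of `K` to a group `E` is unramified at all
finite and real places. At the finite places: for every maximal ideal `P` of the ring of all
algebraic integers, the inertia group at `P` in the absolute Galois group of `K` is mapped to `1`.
At the real places: all complex conjugations, that is, all elements of order two of the absolute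
Galois group, are mapped to `1`. -/
def Unramified {F : Type} [Field F] {K : IntermediateField F (AlgebraicClosure F)}
    {E : Type} [Group E] (f : K.fixingSubgroup →* E) : Prop :=
  (∀ P : Ideal (𝓞 (AlgebraicClosure F)), P.IsMaximal → ∀ τ : K.fixingSubgroup,
    (∀ x : 𝓞 (AlgebraicClosure F), (τ : Gal(AlgebraicClosure F/F)) • x - x ∈ P) → f τ = 1) ∧
  ∀ τ : K.fixingSubgroup, τ * τ = 1 → f τ = 1

/-- `p ^ e` kills the Galois group of every unramified finite abelian extension of `K` of `p`-power
degree. -/
def AbelianExponent {F : Type} [Field F] (K : IntermediateField F (AlgebraicClosure F))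
    (p e : ℕ) : Prop :=
  ∀ (E : Type) [CommGroup E] [Finite E], IsPGroup p E → ∀ f : K.fixingSubgroup →* E,
    IsOpen (f.ker : Set K.fixingSubgroup) → Unramified f → ∀ g, f g ^ (p ^ e) = 1

/-- `f` belongs to the space `V` of all unramified homomorphisms with open kernel from the absolute
Galois group of `K` to `ℤ/p`. -/
def Mem {F : Type} [Field F] {K : IntermediateField F (AlgebraicClosure F)} {p : ℕ}
    (f : K.fixingSubgroup →* Multiplicative (ZMod p)) : Prop :=
  IsOpen (f.ker : Set K.fixingSubgroup) ∧ Unramified f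

/-- There is an element `a = ∑ a_σ σ` of the integral group ring of the absolute Galois group of
`F` which acts as `0` on `V` and as the identity on the `i`-th tensor power of `V`. Here `σ` acts
on `f ∈ V` by `f ↦ (g ↦ f (σ g σ⁻¹))`, and `f₁ ⊗ ⋯ ⊗ f_i` is identified with the function
`(g₁, ..., g_i) ↦ f₁(g₁) ⋯ f_i(g_i)`. (All this factors through `Gal(K/F)`, and such an element
exists if and only if `V` and its `i`-th tensor power have no common composition factor.) -/
def Separated {F : Type} [Field F] [CharZero F] (K : IntermediateField F (AlgebraicClosure F))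
    [IsGalois F K] (p i : ℕ) : Prop :=
  ∃ a : Gal(AlgebraicClosure F/F) →₀ ℤ,
    (∀ f : K.fixingSubgroup →* Multiplicative (ZMod p), Mem f → ∀ g : K.fixingSubgroup,
      ∑ σ ∈ a.support, (a σ : ZMod p) *
        Multiplicative.toAdd (f (MulAut.conjNormal σ g)) = 0) ∧
    ∀ f : Fin i → (K.fixingSubgroup →* Multiplicative (ZMod p)), (∀ j, Mem (f j)) →
      ∀ g : Fin i → K.fixingSubgroup,
        ∑ σ ∈ a.support, (a σ : ZMod p) *
          ∏ j, Multiplicative.toAdd (f j (MulAut.conjNormal σ (g j))) =
            ∏ j, Multiplicative.toAdd (f j (g j))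

/-- Every `ρ g` is unipotent modulo the maximal ideal: some power of `ρ g - 1` has all entries in
the maximal ideal. -/
def ResiduallyUnipotent {F : Type} [Field F] {K : IntermediateField F (AlgebraicClosure F)}
    {A : Type} [CommRing A] [IsLocalRing A] {n : ℕ} (ρ : K.fixingSubgroup →* GL (Fin n) A) : Prop :=
  ∀ g, ∃ M : ℕ, ∀ i j, (((ρ g : Matrix (Fin n) (Fin n) A) - 1) ^ M) i j ∈ maximalIdeal A

/-- All products of `r` matrices of the form `ρ g - 1` have all their entries in the `s`-th power
of the maximal ideal. -/
def Depth {F : Type} [Field F] {K : IntermediateField F (AlgebraicClosure F)}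
    {A : Type} [CommRing A] [IsLocalRing A] {n : ℕ} (ρ : K.fixingSubgroup →* GL (Fin n) A)
    (r s : ℕ) : Prop :=
  ∀ (g : Fin r → K.fixingSubgroup) (i j : Fin n),
    (List.ofFn fun t => (ρ (g t) : Matrix (Fin n) (Fin n) A) - 1).prod i j ∈ maximalIdeal A ^ s

theorem result (p : ℕ) [Fact p.Prime] (F : Type) [Field F] [NumberField F]
    (K : IntermediateField F (AlgebraicClosure F)) [FiniteDimensional F K] [IsGalois F K]
    (e m : ℕ) (he : AbelianExponent K p e) (hsep : ∀ i, 2 ≤ i → i ≤ m → Separated K p i)
    (A : Type) [CommRing A] [IsDomain A] [IsDiscreteValuationRing A] [TopologicalSpace A]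
    (hA : IsAdic (maximalIdeal A)) (hfin : Finite (ResidueField A)) (e0 : ℕ)
    (hp : (p : A) ∈ maximalIdeal A) (h0 : (p : A) ∈ maximalIdeal A ^ e0)
    (h1 : (p : A) ∉ maximalIdeal A ^ (e0 + 1)) (n : ℕ)
    (ρ : K.fixingSubgroup →* GL (Fin n) A) (hρ : Continuous ρ) (hur : Unramified ρ)
    (hdepth : (n * e * e0 < m ∧ ResiduallyUnipotent ρ) ∨
      ∃ r s : ℕ, 1 ≤ r ∧ r * e * e0 < s * m ∧ Depth ρ r s) :
    ∀ g, ρ g = 1 := by
  have hpp : p.Prime := Fact.out
  have hfi : Finite (Gal(AlgebraicClosure F/F) ⧸ K.fixingSubgroup) := by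
    have : CompactSpace Gal(AlgebraicClosure F/F) := inferInstance
    exact Subgroup.quotient_finite_of_isOpen _ (IntermediateField.fixingSubgroup_isOpen K)
  set Ur : Set K.fixingSubgroup :=
    Pool.Agent.Y802.GC.UrN ∅ K.fixingSubgroup ∪ {τ | τ * τ = 1} with hUr
  have key : ∀ (E : Type) [Group E] (f : K.fixingSubgroup →* E),
      (∀ τ ∈ Ur, f τ = 1) ↔ Unramified f := by
    intro E _ f
    constructor
    · intro h
      exact ⟨fun P hP τ hτ => h τ (Or.inl ⟨P, hP, Set.notMem_empty _, hτ⟩),
        fun τ hτ => h τ (Or.inr hτ)⟩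
    · rintro h τ (⟨P, hP, -, hτ⟩ | hτ)
      · exact h.1 P hP τ hτ
      · exact h.2 τ hτ
  have hconj : ∀ (g : Gal(AlgebraicClosure F/F)) (τ : K.fixingSubgroup), τ ∈ Ur →
      MulAut.conjNormal g τ ∈ Ur := by
    rintro g τ (hτ | hτ)
    · exact Or.inl (Pool.Agent.Y802.GC.UrN_conj ∅ _ g τ hτ)
    · refine Or.inr ?_
      show MulAut.conjNormal g τ * MulAut.conjNormal g τ = 1
      have h2 : τ * τ = 1 := hτ
      rw [← map_mul, h2, map_one]
  have hexp : ∀ (E : Type) [CommGroup E] [Finite E], IsPGroup p E →
      ∀ f : K.fixingSubgroup →* E, IsOpen (f.ker : Set K.fixingSubgroup) →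
        (∀ τ ∈ Ur, f τ = 1) → ∀ g, f g ^ (p ^ e) = 1 :=
    fun E _ _ hE f hf hfu g => he E hE f hf ((key E f).1 hfu) g
  have hmem : ∀ f : K.fixingSubgroup →* Multiplicative (ZMod p),
      Pool.Agent.Y802.GC.Adm p Ur f → Mem f := fun f hf => ⟨hf.isOpen, (key _ f).1 hf.ur⟩
  have hsep' : ∀ i, 2 ≤ i → i ≤ m → Pool.Agent.Y802.GC.Sepa K.fixingSubgroup p Ur i := by
    intro i hi him
    obtain ⟨a, ha0, ha1⟩ := hsep i hi him
    exact ⟨a, fun f hf g => ha0 f (hmem f hf) g,
      fun f hf g => ha1 f (fun j => hmem _ (hf j)) g⟩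
  have hreg := Pool.Agent.Y802.GC.regOrd_dvr' h0 h1
  rcases hdepth with ⟨hn, hres⟩ | ⟨r, s, hr, hrs, hd⟩
  · exact Pool.Agent.Y802.GC.main_unip hpp hA hfin hp hreg hconj hexp hsep' ρ hρ
      ((key _ ρ).2 hur) hn hres
  · exact Pool.Agent.Y802.GC.main_depth hpp hA hfin hp hreg hconj hexp hsep' ρ hρ
      ((key _ ρ).2 hur) hr hrs hd

end Pool.Agent.Results.MP_ca71b5_nt.UnramifiedDimension
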